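import Pool.Agent.Helper3.AK.Goals4

/-!
# QRY: adaptive queries, exponential moment
-/

namespace Pool.Agent.Helper56.AK

open Pool.Agent.Helper3.AK Equiv

variable {n K : ℕ}

/-- the next answer -/
def nx (x : Fin K → Alt n) (Q : List (Fin n) → Fin n × Letter K) (pre : List (Fin n)) : Fin n :=
  lett x (Q pre).2 (Q pre).1

/-- the next answers -/
def rst (x : Fin K → Alt n) (Q : List (Fin n) → Fin n × Letter K) :
    List (Fin n) → ℕ → List (Fin n)
  | _, 0 => []
  | pre, R + 1 => nx x Q pre :: rst x Q (pre ++ [nx x Q pre]) R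

theorem answ_succ (x : Fin K → Alt n) (Q : List (Fin n) → Fin n × Letter K) (τ : ℕ) :
    answ x Q (τ + 1) = answ x Q τ ++ [nx x Q (answ x Q τ)] := rfl

theorem answ_add (x : Fin K → Alt n) (Q : List (Fin n) → Fin n × Letter K) (R : ℕ) :
    ∀ τ, answ x Q (τ + R) = answ x Q τ ++ rst x Q (answ x Q τ) R := by
  induction R with
  | zero => intro τ; simp [rst]
  | succ R ih =>
    intro τ
    have h : τ + (R + 1) = (τ + 1) + R := by ring
    rw [h, ih (τ + 1), answ_succ]
    simp only [rst, List.append_assoc, List.singleton_append]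

theorem length_answ (x : Fin K → Alt n) (Q : List (Fin n) → Fin n × Letter K) (τ : ℕ) :
    (answ x Q τ).length = τ := by
  induction τ with
  | zero => rfl
  | succ τ ih => rw [answ_succ, List.length_append, ih]; rfl

/-- the `x` with the answers `pre` -/
def Om (K : ℕ) (Q : List (Fin n) → Fin n × Letter K) (pre : List (Fin n)) :
    Finset (Fin K → Alt n) :=
  Finset.univ.filter fun x => answ x Q pre.length = pre

theorem mem_Om {Q : List (Fin n) → Fin n × Letter K} {pre : List (Fin n)} {x : Fin K → Alt n} :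
    x ∈ Om K Q pre ↔ answ x Q pre.length = pre := by
  unfold Om
  rw [Finset.mem_filter]
  exact and_iff_right (Finset.mem_univ _)

theorem mem_Om_append {Q : List (Fin n) → Fin n × Letter K} {pre : List (Fin n)} {w : Fin n}
    {x : Fin K → Alt n} : x ∈ Om K Q (pre ++ [w]) ↔ x ∈ Om K Q pre ∧ nx x Q pre = w := by
  rw [mem_Om, mem_Om, List.length_append, List.length_singleton, answ_succ]
  constructor
  · intro h
    have h1 := List.append_inj' h rfl
    refine ⟨h1.1, ?_⟩
    have h2 := h1.2
    rw [h1.1] at h2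
    exact List.singleton_injective h2
  · rintro ⟨h1, h2⟩
    rw [h1, h2]

/-- the constraint given by an answer -/
def con (Q : List (Fin n) → Fin n × Letter K) (s : List (Fin n)) (w : Fin n) : Fin n × Fin n :=
  if (Q s).2.2 then (w, (Q s).1) else ((Q s).1, w)

open Classical in
/-- the constraints on `x j` -/
noncomputable def Cc (Q : List (Fin n) → Fin n × Letter K) (pre : List (Fin n)) (j : Fin K) :
    Finset (Fin n × Fin n) :=
  Finset.univ.filter fun a => ∃ s w, (s ++ [w]) <+: pre ∧ (Q s).2.1 = j ∧ con Q s w = a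

theorem mem_Cc {Q : List (Fin n) → Fin n × Letter K} {pre : List (Fin n)} {j : Fin K}
    {a : Fin n × Fin n} : a ∈ Cc Q pre j ↔
      ∃ s w, (s ++ [w]) <+: pre ∧ (Q s).2.1 = j ∧ con Q s w = a := by
  classical
  unfold Cc
  rw [Finset.mem_filter]
  exact and_iff_right (Finset.mem_univ _)

theorem Cc_nil (Q : List (Fin n) → Fin n × Letter K) (j : Fin K) : Cc Q [] j = ∅ := by
  rw [Finset.eq_empty_iff_forall_notMem]
  intro a ha
  obtain ⟨s, w, h, -⟩ := mem_Cc.1 ha
  rw [List.prefix_nil] at h
  simp at h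

theorem prefix_append_iff {pre s : List (Fin n)} {w w' : Fin n} :
    (s ++ [w']) <+: (pre ++ [w]) ↔ (s = pre ∧ w' = w) ∨ (s ++ [w']) <+: pre := by
  rw [List.prefix_concat_iff]
  constructor
  · rintro (h | h)
    · have h1 := List.append_inj' h rfl
      exact Or.inl ⟨h1.1, List.singleton_injective h1.2⟩
    · exact Or.inr h
  · rintro (⟨rfl, rfl⟩ | h)
    · exact Or.inl rfl
    · exact Or.inr h

theorem Cc_append_same (Q : List (Fin n) → Fin n × Letter K) (pre : List (Fin n)) (w : Fin n) :
    Cc Q (pre ++ [w]) (Q pre).2.1 = insert (con Q pre w) (Cc Q pre (Q pre).2.1) := by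
  ext a
  rw [mem_Cc, Finset.mem_insert, mem_Cc]
  constructor
  · rintro ⟨s, w', h, h1, h2⟩
    rcases prefix_append_iff.1 h with ⟨rfl, rfl⟩ | h
    · exact Or.inl h2.symm
    · exact Or.inr ⟨s, w', h, h1, h2⟩
  · rintro (h | ⟨s, w', h, h1, h2⟩)
    · exact ⟨pre, w, List.prefix_refl _, rfl, h.symm⟩
    · exact ⟨s, w', prefix_append_iff.2 (Or.inr h), h1, h2⟩

theorem Cc_append_ne (Q : List (Fin n) → Fin n × Letter K) (pre : List (Fin n)) (w : Fin n)
    {j : Fin K} (hj : (Q pre).2.1 ≠ j) : Cc Q (pre ++ [w]) j = Cc Q pre j := by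
  ext a
  rw [mem_Cc, mem_Cc]
  constructor
  · rintro ⟨s, w', h, h1, h2⟩
    rcases prefix_append_iff.1 h with ⟨rfl, rfl⟩ | h
    · exact absurd h1 hj
    · exact ⟨s, w', h, h1, h2⟩
  · rintro ⟨s, w', h, h1, h2⟩
    exact ⟨s, w', prefix_append_iff.2 (Or.inr h), h1, h2⟩

theorem card_Cc (Q : List (Fin n) → Fin n × Letter K) (pre : List (Fin n)) (j : Fin K) :
    (Cc Q pre j).card ≤ pre.length := by
  induction pre using List.reverseRecOn with
  | nil => rw [Cc_nil]; simp
  | append_singleton pre w ih =>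
    rw [List.length_append, List.length_singleton]
    by_cases hj : (Q pre).2.1 = j
    · subst hj
      rw [Cc_append_same]
      exact (Finset.card_insert_le _ _).trans (by omega)
    · rw [Cc_append_ne Q pre w hj]
      omega

theorem nx_iff {Q : List (Fin n) → Fin n × Letter K} {pre : List (Fin n)} {w : Fin n}
    {x : Fin K → Alt n} : nx x Q pre = w ↔
      (x (Q pre).2.1 : Perm (Fin n)) (con Q pre w).1 = (con Q pre w).2 := by
  unfold nx lett con
  by_cases h : (Q pre).2.2
  · simp only [h, if_true]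
    rw [Perm.inv_eq_iff_eq]
    exact eq_comm
  · simp only [h, if_false, Bool.false_eq_true]

theorem mem_Om_iff {Q : List (Fin n) → Fin n × Letter K} {pre : List (Fin n)}
    {x : Fin K → Alt n} : x ∈ Om K Q pre ↔
      ∀ j, ∀ a ∈ Cc Q pre j, (x j : Perm (Fin n)) a.1 = a.2 := by
  induction pre using List.reverseRecOn with
  | nil =>
    constructor
    · intro _ j a ha
      rw [Cc_nil] at ha
      simp at ha
    · intro _
      exact mem_Om.2 rfl
  | append_singleton pre w ih =>
    rw [mem_Om_append, ih, nx_iff]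
    constructor
    · rintro ⟨h1, h2⟩ j a ha
      by_cases hj : (Q pre).2.1 = j
      · subst hj
        rw [Cc_append_same, Finset.mem_insert] at ha
        rcases ha with rfl | ha
        · exact h2
        · exact h1 _ a ha
      · rw [Cc_append_ne Q pre w hj] at ha
        exact h1 j a ha
    · intro h
      refine ⟨fun j a ha => h j a ?_, h _ _ ?_⟩
      · by_cases hj : (Q pre).2.1 = j
        · subst hj
          rw [Cc_append_same]
          exact Finset.mem_insert_of_mem ha
        · rw [Cc_append_ne Q pre w hj]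
          exact ha
      · rw [Cc_append_same]
        exact Finset.mem_insert_self _ _

/-- the even permutations with prescribed values -/
def Pv (A : Finset (Fin n × Fin n)) : Finset (Alt n) :=
  Finset.univ.filter fun g => ∀ a ∈ A, (g : Perm (Fin n)) a.1 = a.2

theorem mem_Pv {A : Finset (Fin n × Fin n)} {g : Alt n} :
    g ∈ Pv A ↔ ∀ a ∈ A, (g : Perm (Fin n)) a.1 = a.2 := by
  unfold Pv
  rw [Finset.mem_filter]
  exact and_iff_right (Finset.mem_univ _)

theorem card_Pv (A : Finset (Fin n × Fin n)) :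
    (Pv A).card = Nat.card {g : Alt n // ∀ a ∈ A, (g : Perm (Fin n)) a.1 = a.2} := by
  rw [Nat.card_eq_fintype_card, Fintype.card_subtype]
  rfl

theorem Om_eq (Q : List (Fin n) → Fin n × Letter K) (pre : List (Fin n)) :
    Om K Q pre = Fintype.piFinset fun j => Pv (Cc Q pre j) := by
  ext x
  rw [mem_Om_iff, Fintype.mem_piFinset]
  exact forall_congr' fun j => mem_Pv.symm

theorem card_Om (Q : List (Fin n) → Fin n × Letter K) (pre : List (Fin n)) :
    (Om K Q pre).card = ∏ j, (Pv (Cc Q pre j)).card := by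
  rw [Om_eq, Fintype.card_piFinset]

theorem Pv_insert (hE : S_EXT) (A : Finset (Fin n × Fin n)) (a : Fin n × Fin n)
    (hcard : A.card + 3 ≤ n) (ha : (∀ b ∈ A, b.1 ≠ a.1) ∨ (∀ b ∈ A, b.2 ≠ a.2)) :
    (n - A.card) * (Pv (insert a A)).card ≤ (Pv A).card := by
  rcases (Pv (insert a A)).eq_empty_or_nonempty with h0 | ⟨g, hg⟩
  · rw [h0, Finset.card_empty, mul_zero]
    exact Nat.zero_le _
  · have hg' := mem_Pv.1 hg
    have h1 : ∀ b ∈ insert a A, ∀ b' ∈ insert a A, b.1 = b'.1 → b = b' := by
      intro b hb b' hb' h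
      refine Prod.ext h ?_
      rw [← hg' b hb, ← hg' b' hb', h]
    have h2 : ∀ b ∈ insert a A, ∀ b' ∈ insert a A, b.2 = b'.2 → b = b' := by
      intro b hb b' hb' h
      refine Prod.ext ?_ h
      rw [← hg' b hb, ← hg' b' hb'] at h
      exact (g : Perm (Fin n)).injective h
    have haA : a ∉ A := by
      intro h
      rcases ha with ha | ha
      · exact ha a h rfl
      · exact ha a h rfl
    have h3 := hE n (insert a A) h1 h2 (by rw [Finset.card_insert_of_notMem haA]; omega)
    have h4 := hE n A (fun b hb b' hb' => h1 b (Finset.mem_insert_of_mem hb) b'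
      (Finset.mem_insert_of_mem hb')) (fun b hb b' hb' => h2 b (Finset.mem_insert_of_mem hb) b'
      (Finset.mem_insert_of_mem hb')) (by omega)
    rw [← card_Pv, Finset.card_insert_of_notMem haA] at h3
    rw [← card_Pv] at h4
    have h5 : n - A.card = (n - (A.card + 1)) + 1 := by omega
    have h6 : (n - A.card).factorial = (n - A.card) * (n - (A.card + 1)).factorial := by
      rw [h5, Nat.factorial_succ]
    rw [h6, ← h3] at h4
    nlinarith

theorem unknown {Q : List (Fin n) → Fin n × Letter K} {pre : List (Fin n)}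
    (h : ¬ KD Q pre (Q pre)) (w : Fin n) :
    (∀ b ∈ Cc Q pre (Q pre).2.1, b.1 ≠ (con Q pre w).1) ∨
      (∀ b ∈ Cc Q pre (Q pre).2.1, b.2 ≠ (con Q pre w).2) := by
  by_cases hl : (Q pre).2.2 = true
  · right
    intro b hb hbv
    apply h
    have hc : (con Q pre w).2 = (Q pre).1 := by
      unfold con
      rw [if_pos hl]
    rw [hc] at hbv
    obtain ⟨s, w', hs, hj, rfl⟩ := mem_Cc.1 hb
    refine ⟨s, w', hs, ?_⟩
    by_cases hs2 : (Q s).2.2 = true
    · left
      have h1 : (con Q s w').2 = (Q s).1 := by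
        unfold con
        rw [if_pos hs2]
      rw [h1] at hbv
      exact Prod.ext hbv.symm (Prod.ext hj.symm (by rw [hl, hs2]))
    · right
      have h1 : (con Q s w').2 = w' := by
        unfold con
        rw [if_neg hs2]
      rw [h1] at hbv
      refine Prod.ext hbv.symm (Prod.ext hj.symm ?_)
      rw [hl]
      simp only [Pool.Agent.Helper3.AK.flip]
      rw [Bool.not_eq_true] at hs2
      rw [hs2]
      rfl
  · left
    intro b hb hbv
    apply h
    have hc : (con Q pre w).1 = (Q pre).1 := by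
      unfold con
      rw [if_neg hl]
    rw [hc] at hbv
    rw [Bool.not_eq_true] at hl
    obtain ⟨s, w', hs, hj, rfl⟩ := mem_Cc.1 hb
    refine ⟨s, w', hs, ?_⟩
    by_cases hs2 : (Q s).2.2 = true
    · right
      have h1 : (con Q s w').1 = w' := by
        unfold con
        rw [if_pos hs2]
      rw [h1] at hbv
      refine Prod.ext hbv.symm (Prod.ext hj.symm ?_)
      rw [hl]
      simp only [Pool.Agent.Helper3.AK.flip]
      rw [hs2]
      rfl
    · left
      have h1 : (con Q s w').1 = (Q s).1 := by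
        unfold con
        rw [if_neg hs2]
      rw [h1] at hbv
      rw [Bool.not_eq_true] at hs2
      exact Prod.ext hbv.symm (Prod.ext hj.symm (by rw [hl, hs2]))

/-- the number of the `x` with one more answer -/
theorem card_Om_append (hE : S_EXT) {Q : List (Fin n) → Fin n × Letter K} {pre : List (Fin n)}
    (h : ¬ KD Q pre (Q pre)) {Nq : ℕ} (hN : Nq + 2 ≤ n) (hp : pre.length < Nq) (w : Fin n) :
    (n - Nq) * (Om K Q (pre ++ [w])).card ≤ (Om K Q pre).card := by
  have h0 := card_Cc Q pre (Q pre).2.1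
  have h1 := Pv_insert hE (Cc Q pre (Q pre).2.1) (con Q pre w) (by omega) (unknown h w)
  rw [card_Om, card_Om, ← Finset.mul_prod_erase Finset.univ _ (Finset.mem_univ (Q pre).2.1),
    ← Finset.mul_prod_erase Finset.univ (fun j => (Pv (Cc Q pre j)).card)
      (Finset.mem_univ (Q pre).2.1)]
  have h2 : ∏ j ∈ Finset.univ.erase (Q pre).2.1, (Pv (Cc Q (pre ++ [w]) j)).card =
      ∏ j ∈ Finset.univ.erase (Q pre).2.1, (Pv (Cc Q pre j)).card := by
    refine Finset.prod_congr rfl fun j hj => ?_
    rw [Cc_append_ne Q pre w (Finset.ne_of_mem_erase hj).symm]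
  rw [h2, Cc_append_same, ← mul_assoc]
  refine Nat.mul_le_mul_right _ (le_trans (Nat.mul_le_mul_right _ ?_) h1)
  omega

theorem sum_card_Om (Q : List (Fin n) → Fin n × Letter K) (pre : List (Fin n)) :
    ∑ w, (Om K Q (pre ++ [w])).card = (Om K Q pre).card := by
  classical
  rw [Finset.card_eq_sum_card_fiberwise (f := fun x => nx x Q pre) (t := Finset.univ)
    (fun x _ => by simp)]
  refine Finset.sum_congr rfl fun w _ => ?_
  congr 1
  ext x
  rw [Finset.mem_filter, mem_Om_append]

theorem main_ineq (hE : S_EXT) (Nq N₀ : ℕ) (θ : ℝ) (Q : List (Fin n) → Fin n × Letter K)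
    (B : List (Fin n) → Finset (Fin n)) (hθ : 0 ≤ θ) (hN : Nq + 2 ≤ n)
    (hB : ∀ s : List (Fin n), s.length < Nq → (B s).card ≤ N₀) (R : ℕ) :
    ∀ pre : List (Fin n), pre.length + R = Nq →
      ∑ x ∈ Om K Q pre, θ ^ cnt Q B pre (rst x Q pre R) ≤
        ((Om K Q pre).card : ℝ) * (1 + θ * N₀ / ((n : ℝ) - Nq)) ^ R := by
  classical
  have hpos : (0 : ℝ) < (n : ℝ) - Nq := by
    have : (Nq : ℝ) + 2 ≤ n := by exact_mod_cast hN
    linarith
  have hc0 : 0 ≤ θ * N₀ / ((n : ℝ) - Nq) := by positivity
  induction R with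
  | zero =>
    intro pre _
    simp [rst, cnt]
  | succ R ih =>
    intro pre hpre
    have hlt : pre.length < Nq := by omega
    have e1 : ∑ x ∈ Om K Q pre, θ ^ cnt Q B pre (rst x Q pre (R + 1)) =
        ∑ w, θ ^ (if ¬ KD Q pre (Q pre) ∧ w ∈ B pre then 1 else 0) *
          ∑ x ∈ Om K Q (pre ++ [w]), θ ^ cnt Q B (pre ++ [w]) (rst x Q (pre ++ [w]) R) := by
      rw [← Finset.sum_fiberwise_of_maps_to (g := fun x => nx x Q pre) (t := Finset.univ)
        (fun x _ => Finset.mem_univ _)]
      refine Finset.sum_congr rfl fun w _ => ?_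
      rw [Finset.mul_sum]
      have e2 : (Om K Q pre).filter (fun x => nx x Q pre = w) = Om K Q (pre ++ [w]) := by
        ext x
        rw [Finset.mem_filter, mem_Om_append]
      rw [e2]
      refine Finset.sum_congr rfl fun x hx => ?_
      have h1 := (mem_Om_append.1 hx).2
      have h2 : rst x Q pre (R + 1) = w :: rst x Q (pre ++ [w]) R := by
        rw [← h1]
        rfl
      rw [h2, ← pow_add]
      rfl
    rw [e1]
    have e3 : ∑ w, θ ^ (if ¬ KD Q pre (Q pre) ∧ w ∈ B pre then 1 else 0) *
          ∑ x ∈ Om K Q (pre ++ [w]), θ ^ cnt Q B (pre ++ [w]) (rst x Q (pre ++ [w]) R) ≤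
        ∑ w, θ ^ (if ¬ KD Q pre (Q pre) ∧ w ∈ B pre then 1 else 0) *
          (((Om K Q (pre ++ [w])).card : ℝ) * (1 + θ * N₀ / ((n : ℝ) - Nq)) ^ R) := by
      refine Finset.sum_le_sum fun w _ => mul_le_mul_of_nonneg_left ?_ (by positivity)
      refine ih (pre ++ [w]) ?_
      rw [List.length_append, List.length_singleton]
      omega
    refine e3.trans ?_
    have e4 : ∑ w, θ ^ (if ¬ KD Q pre (Q pre) ∧ w ∈ B pre then 1 else 0) *
          (((Om K Q (pre ++ [w])).card : ℝ) * (1 + θ * N₀ / ((n : ℝ) - Nq)) ^ R) =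
        (∑ w, θ ^ (if ¬ KD Q pre (Q pre) ∧ w ∈ B pre then 1 else 0) *
          ((Om K Q (pre ++ [w])).card : ℝ)) * (1 + θ * N₀ / ((n : ℝ) - Nq)) ^ R := by
      rw [Finset.sum_mul]
      exact Finset.sum_congr rfl fun w _ => (mul_assoc _ _ _).symm
    rw [e4, pow_succ', ← mul_assoc]
    refine mul_le_mul_of_nonneg_right ?_ (by positivity)
    have hsum : ∑ w, ((Om K Q (pre ++ [w])).card : ℝ) = ((Om K Q pre).card : ℝ) := by
      exact_mod_cast sum_card_Om Q pre
    by_cases hk : KD Q pre (Q pre)
    · simp only [hk, not_true_eq_false, false_and, if_false, pow_zero, one_mul]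
      rw [hsum]
      have h1 : (0 : ℝ) ≤ (Om K Q pre).card := by positivity
      nlinarith
    · simp only [hk, not_false_eq_true, true_and]
      have h2 : ∀ w, θ ^ (if w ∈ B pre then 1 else 0) * ((Om K Q (pre ++ [w])).card : ℝ) ≤
          ((Om K Q (pre ++ [w])).card : ℝ) +
            (if w ∈ B pre then θ * ((Om K Q (pre ++ [w])).card : ℝ) else 0) := by
        intro w
        have h1 : (0 : ℝ) ≤ (Om K Q (pre ++ [w])).card := by positivity
        by_cases hw : w ∈ B pre
        · rw [if_pos hw, if_pos hw, pow_one]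
          linarith
        · rw [if_neg hw, if_neg hw, pow_zero, one_mul, add_zero]
      refine (Finset.sum_le_sum fun w _ => h2 w).trans ?_
      rw [Finset.sum_add_distrib, hsum, ← Finset.sum_filter]
      have h3 : ∀ w, θ * ((Om K Q (pre ++ [w])).card : ℝ) ≤
          θ * ((Om K Q pre).card : ℝ) / ((n : ℝ) - Nq) := by
        intro w
        have h4 := card_Om_append hE hk hN hlt w
        have h5 : ((n : ℝ) - Nq) * ((Om K Q (pre ++ [w])).card : ℝ) ≤ (Om K Q pre).card := by
          have h6 : ((n - Nq : ℕ) : ℝ) = (n : ℝ) - Nq := by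
            rw [Nat.cast_sub (by omega)]
          rw [← h6]
          exact_mod_cast h4
        rw [le_div_iff₀ hpos]
        nlinarith
      have h7 : ∑ w ∈ Finset.univ.filter (fun w => w ∈ B pre),
          θ * ((Om K Q (pre ++ [w])).card : ℝ) ≤
          (N₀ : ℝ) * (θ * ((Om K Q pre).card : ℝ) / ((n : ℝ) - Nq)) := by
        refine (Finset.sum_le_card_nsmul _ _ _ fun w _ => h3 w).trans ?_
        rw [nsmul_eq_mul]
        refine mul_le_mul_of_nonneg_right ?_ (by positivity)
        have h8 : (Finset.univ.filter (fun w => w ∈ B pre)) = B pre := by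
          ext w
          simp
        rw [h8]
        exact_mod_cast hB pre hlt
      have h9 : (N₀ : ℝ) * (θ * ((Om K Q pre).card : ℝ) / ((n : ℝ) - Nq)) =
          ((Om K Q pre).card : ℝ) * (θ * N₀ / ((n : ℝ) - Nq)) := by ring
      rw [h9] at h7
      linarith

theorem qry (hE : S_EXT) : S_QRY := by
  intro n K Nq N₀ θ Q B hθ hN hB
  have h := main_ineq (K := K) hE Nq N₀ θ Q B hθ hN hB Nq [] (by simp)
  have h1 : Om K Q [] = Finset.univ := by
    ext x
    simp [mem_Om, answ]
  rw [h1, Finset.card_univ, Fintype.card_fun, Fintype.card_fin] at h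
  have h2 : ∀ x : Fin K → Alt n, answ x Q Nq = rst x Q [] Nq := by
    intro x
    have h3 := answ_add x Q Nq 0
    rw [Nat.zero_add] at h3
    exact h3
  simp only [h2]
  refine h.trans (le_of_eq ?_)
  rw [Nat.cast_pow, Nat.card_eq_fintype_card]

end Pool.Agent.Helper56.AK
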